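import Pool.Agent.H110R3.Urn.Stmts

/-!
# Task M0: the Markov property of the urn process
-/

set_option autoImplicit false

namespace Pool.Agent.H68R3.Urn

open MeasureTheory Filter Topology Pool.Agent.H110R3.Urn

variable {m : ℕ} (G : SimpleGraph (Fin m)) [DecidableRel G.Adj]

/-- extension of a finite sequence of choices -/
def ext {n : ℕ} (t : Fin n → Ch G) : ℕ → Ch G :=
  fun k => if h : k < n then t ⟨k, h⟩ else fun _ => false

theorem st_congr (b0 : Fin m → ℕ) (s s' : ℕ → Ch G) (n : ℕ) (h : ∀ k < n, s k = s' k) :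
    st G b0 s n = st G b0 s' n := by
  induction n with
  | zero => rfl
  | succ n ih =>
    show stp G (st G b0 s n) (s n) = stp G (st G b0 s' n) (s' n)
    rw [ih fun k hk => h k (by omega), h n (by omega)]

theorem one_le_st (b0 : Fin m → ℕ) (hb : ∀ i, 1 ≤ b0 i) (s : ℕ → Ch G) (n : ℕ) (i : Fin m) :
    1 ≤ st G b0 s n i := by
  induction n with
  | zero => exact hb i
  | succ n ih =>
    show 1 ≤ st G b0 s n i + Y G (s n) i
    omega

section
variable {G}
variable {α : ℝ} {b0 : Fin m → ℕ} {Ω : Type} [MeasurableSpace Ω] {P : Measure Ω}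
  [IsProbabilityMeasure P] {c : ℕ → Ω → Ch G}

theorem measurable_r (hc : IsUrn G α b0 P c) (n : ℕ) :
    Measurable fun ω => (fun k : Fin n => c k ω) :=
  measurable_pi_lambda _ fun k => hc.meas k

theorem integrable_cyl (hc : IsUrn G α b0 P c) (n : ℕ) (Φ : (ℕ → Ch G) → ℝ)
    (hΦ : ∀ s s' : ℕ → Ch G, (∀ k < n, s k = s' k) → Φ s = Φ s') :
    Integrable (fun ω => Φ (fun k => c k ω)) P := by
  have h1 : (fun ω => Φ (fun k => c k ω)) =
      (fun t : Fin n → Ch G => Φ (ext G t)) ∘ fun ω => (fun k : Fin n => c k ω) := by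
    funext ω
    refine hΦ _ _ fun k hk => ?_
    simp [ext, hk]
  rw [h1]
  have : IsFiniteMeasure (P.map fun ω => (fun k : Fin n => c k ω)) := by
    infer_instance
  exact Integrable.comp_measurable (Integrable.of_finite) (measurable_r hc n)

theorem integral_cyl (hA : TaskA1) (hb : ∀ i, 1 ≤ b0 i) (hc : IsUrn G α b0 P c) (n : ℕ)
    (Φ : (ℕ → Ch G) → ℝ) (hΦ : ∀ s s' : ℕ → Ch G, (∀ k < n, s k = s' k) → Φ s = Φ s') :
    ∫ ω, Φ (fun k => c k ω) ∂P = ∑ t : Fin n → Ch G,
      (∏ k ∈ Finset.range n, w G α (st G b0 (ext G t) k) (ext G t k)) * Φ (ext G t) := by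
  have h1 : (fun ω => Φ (fun k => c k ω)) =
      fun ω => (fun t : Fin n → Ch G => Φ (ext G t)) (fun k : Fin n => c k ω) := by
    funext ω
    refine hΦ _ _ fun k hk => ?_
    simp [ext, hk]
  have hm := measurable_r hc n
  have : IsFiniteMeasure (P.map fun ω => (fun k : Fin n => c k ω)) := by
    infer_instance
  rw [h1, ← integral_map hm.aemeasurable (Measurable.of_discrete.aestronglyMeasurable)
    (f := fun t : Fin n → Ch G => Φ (ext G t)), integral_fintype Integrable.of_finite]
  refine Finset.sum_congr rfl fun t _ => ?_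
  rw [smul_eq_mul]
  congr 1
  rw [Measure.real, Measure.map_apply hm (measurableSet_singleton t)]
  have h2 : (fun ω => (fun k : Fin n => c k ω)) ⁻¹' {t} = {ω | ∀ k < n, c k ω = ext G t k} := by
    ext ω
    simp only [Set.mem_preimage, Set.mem_singleton_iff, Set.mem_setOf_eq]
    constructor
    · intro h k hk
      have := congrFun h ⟨k, hk⟩
      simp only [ext, hk, dif_pos]
      exact this
    · intro h
      funext k
      have := h k k.2
      simp only [ext, k.2, dif_pos] at this
      exact this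
  rw [h2, hc.law n (ext G t), ENNReal.toReal_ofReal]
  exact Finset.prod_nonneg fun k _ => (hA m G α _ (one_le_st G b0 hb _ k)).1 _

end

theorem taskM0 : TaskM0 := by
  intro hA m G _ α b0 hb Ω _ P _ c hc n Ψ hΨ
  refine ⟨integrable_cyl hc n Ψ hΨ, fun F => ?_⟩
  have h1 := integral_cyl hA hb hc (n + 1) (fun s => Ψ s * F (st G b0 s (n + 1)))
    (fun s s' h => by
      show Ψ s * F (st G b0 s (n + 1)) = Ψ s' * F (st G b0 s' (n + 1))
      rw [hΨ s s' fun k hk => h k (by omega), st_congr G b0 s s' (n + 1) h])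
  have h2 := integral_cyl hA hb hc n (fun s => Ψ s * PP G α F (st G b0 s n))
    (fun s s' h => by
      show Ψ s * PP G α F (st G b0 s n) = Ψ s' * PP G α F (st G b0 s' n)
      rw [hΨ s s' h, st_congr G b0 s s' n h])
  refine h1.trans (Eq.trans ?_ h2.symm)
  rw [← (Fin.snocEquiv (fun _ : Fin (n + 1) => Ch G)).sum_comp, Fintype.sum_prod_type,
    Finset.sum_comm]
  refine Finset.sum_congr rfl fun t _ => ?_
  have key : ∀ x : Ch G, ∀ k < n,
      ext G (Fin.snocEquiv (fun _ : Fin (n + 1) => Ch G) (x, t)) k = ext G t k := by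
    intro x k hk
    simp only [ext, hk, show k < n + 1 by omega, dif_pos, Fin.snocEquiv_apply]
    exact Fin.snoc_castSucc (α := fun _ : Fin (n + 1) => Ch G) x t ⟨k, hk⟩
  have key2 : ∀ x : Ch G, ext G (Fin.snocEquiv (fun _ : Fin (n + 1) => Ch G) (x, t)) n = x := by
    intro x
    simp only [ext, show n < n + 1 by omega, dif_pos, Fin.snocEquiv_apply]
    exact Fin.snoc_last (α := fun _ : Fin (n + 1) => Ch G) x t
  unfold PP
  rw [Finset.mul_sum, Finset.mul_sum]
  refine Finset.sum_congr rfl fun x _ => ?_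
  rw [Finset.prod_range_succ, key2 x]
  have e1 : ∏ k ∈ Finset.range n, w G α
      (st G b0 (ext G (Fin.snocEquiv (fun _ : Fin (n + 1) => Ch G) (x, t))) k)
      (ext G (Fin.snocEquiv (fun _ : Fin (n + 1) => Ch G) (x, t)) k) =
      ∏ k ∈ Finset.range n, w G α (st G b0 (ext G t) k) (ext G t k) := by
    refine Finset.prod_congr rfl fun k hk => ?_
    have hk' := Finset.mem_range.1 hk
    rw [key x k hk', st_congr G b0 _ _ k fun j hj => key x j (by omega)]
  have e2 : st G b0 (ext G (Fin.snocEquiv (fun _ : Fin (n + 1) => Ch G) (x, t))) n =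
      st G b0 (ext G t) n := st_congr G b0 _ _ n fun j hj => key x j hj
  have e3 : st G b0 (ext G (Fin.snocEquiv (fun _ : Fin (n + 1) => Ch G) (x, t))) (n + 1) =
      stp G (st G b0 (ext G t) n) x := by
    show stp G (st G b0 _ n) _ = _
    rw [e2, key2 x]
  rw [e1, e2, e3, hΨ _ _ fun j hj => key x j hj]
  ring

end Pool.Agent.H68R3.Urn
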